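import Pool.Agent.GH.Cen.Final
import Pool.Agent.GH.Cen3.Main
import Pool.Agent.GH.DefsUL
import Pool.Agent.GH.Five
import Pool.Agent.GH.M7.Final
import Pool.Agent.GH.M13.Final
import Pool.Agent.GH.LN.One
import Pool.Agent.GH.LN.AllN

/-!
# The ghost conjecture for every pair `(p, N)` such that `X_0(Np)` has genus zero
-/

open Filter Topology

namespace Pool.Agent.Results.MP_370013_nt.GhostGenusZero

/-- For `(p, N) = (2,1), (3,1), (5,1), (7,1), (13,1), (3,2), (3,4), (5,2)` (the pairs of the ghost
conjecture for which `X_0(Np)` has genus zero) and every even weight `κ` (all components of the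
even weight space) the coefficients of the Fredholm series `P_κ(t)` of `U_p` on the overconvergent
cusp forms of weight `κ` and level `Γ_0(Np)` exist as limits of the truncations, and its Newton
polygon is the Newton polygon of the ghost series. -/
theorem result (p N : ℕ) [Fact p.Prime]
    (h : N = 1 ∧ (p = 2 ∨ p = 3 ∨ p = 5 ∨ p = 7 ∨ p = 13) ∨ N = 2 ∧ (p = 3 ∨ p = 5) ∨
      N = 4 ∧ p = 3) :
    ∀ κ : GH.Weight p, κ.IsEven →
      (∀ m : ℕ, ∃ c : PadicComplex p,
        Tendsto (fun n : ℕ ↦ GH.fredBlock (κ.uMatrixN N) n m) atTop (𝓝 c)) ∧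
      GH.newtonPolygon p (κ.charSeriesN N) = GH.newtonPolygon p (GH.ghostN p N κ.nu κ.w) := by
  rcases h with ⟨rfl, hp⟩ | ⟨rfl, rfl | rfl⟩ | ⟨rfl, rfl⟩
  · refine (GH.LN.ghostConjectureN_one p hp).2 ?_
    rcases hp with rfl | rfl | rfl | rfl | rfl
    · exact GH.ghostConjectureU_two.2 GH.ghostConjecture_two_one
    · exact GH.ghostConjectureU_three.2 GH.ghostConjecture_three_one
    · exact GH.ghostConjectureU_five
    · exact GH.M7.ghost7
    · exact GH.M13.ghost13
  · exact GH.LN.ghost32
  · exact GH.LN.ghost52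
  · exact GH.LN.ghost34

end Pool.Agent.Results.MP_370013_nt.GhostGenusZero
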